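import Mathlib

/-!
# Context-preserving jumping context-sensitive grammars are not contained in the jumping
monotonous grammars

The language of the words `a ^ n b ^ n`, `n ≥ 1`, is generated by a context-sensitive grammar with
context-preserving jumps, because a word `a ^ n b ^ n` has just one place `ab`.  In a jumping
monotonous grammar the last derivation step inserts a nonempty word `y` of bounded length at an
arbitrary place; inserting it at the front and at the end instead shows that `y` consists of letters
`a` only and of letters `b` only.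
-/

set_option autoImplicit false

namespace Pool.Agent.Results.MP_b8a1e8_lc.ContextJumps

open Relation

/-- A grammar with terminal alphabet `T`: a finite set of nonterminals, a start symbol and a finite
set of rules `x → y`, where `x` contains a nonterminal. -/
structure Grammar (T : Type) where
  /-- the nonterminals -/
  N : Type
  /-- there are finitely many nonterminals -/
  finN : Finite N
  /-- the start symbol -/
  S : N
  /-- the rules `x → y` -/
  P : Finset (List (N ⊕ T) × List (N ⊕ T))
  /-- every left-hand side contains a nonterminal -/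
  lhs : ∀ r ∈ P, ∃ A : N, Sum.inl A ∈ r.1

/-- A monotonous grammar: `|x| ≤ |y|` for every rule `x → y`. -/
def Grammar.Monotonous {T : Type} (G : Grammar T) : Prop :=
  ∀ r ∈ G.P, r.1.length ≤ r.2.length

/-- The jumping step: `u x v ⇒ u' y v'` if `x → y` is a rule and `u v = u' v'`. -/
def Grammar.Jump {T : Type} (G : Grammar T) (w w' : List (G.N ⊕ T)) : Prop :=
  ∃ r ∈ G.P, ∃ u v u' v' : List (G.N ⊕ T), w = u ++ r.1 ++ v ∧ w' = u' ++ r.2 ++ v' ∧
    u ++ v = u' ++ v'

/-- The language `L(G, j⇒)`. -/
def Grammar.jumpLanguage {T : Type} (G : Grammar T) : Set (List T) :=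
  {w | ReflTransGen G.Jump [Sum.inl G.S] (w.map Sum.inr)}

/-- A context-sensitive grammar: its rules `α A β → α γ β` are given by the quadruples
`(α, A, β, γ)`, with `A` a nonterminal and `γ` not empty. -/
structure CSGrammar (T : Type) where
  /-- the nonterminals -/
  N : Type
  /-- there are finitely many nonterminals -/
  finN : Finite N
  /-- the start symbol -/
  S : N
  /-- the rules `α A β → α γ β` -/
  P : Finset (List (N ⊕ T) × N × List (N ⊕ T) × List (N ⊕ T))
  /-- `γ` is not empty -/
  gamma : ∀ r ∈ P, r.2.2.2 ≠ []

/-- The context-preserving jumping step: `u α A β v ⇒ u' α γ β v'` if `α A β → α γ β` is a rule and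
`u α β v = u' α β v'`. -/
def CSGrammar.ContextJump {T : Type} (G : CSGrammar T) (w w' : List (G.N ⊕ T)) : Prop :=
  ∃ r ∈ G.P, ∃ u v u' v' : List (G.N ⊕ T),
    w = u ++ r.1 ++ [Sum.inl r.2.1] ++ r.2.2.1 ++ v ∧
    w' = u' ++ r.1 ++ r.2.2.2 ++ r.2.2.1 ++ v' ∧
    u ++ r.1 ++ r.2.2.1 ++ v = u' ++ r.1 ++ r.2.2.1 ++ v'

/-- The language `L(G, b⇒)`. -/
def CSGrammar.contextJumpLanguage {T : Type} (G : CSGrammar T) : Set (List T) :=
  {w | ReflTransGen G.ContextJump [Sum.inl G.S] (w.map Sum.inr)}

/-- The word `a ^ n b ^ n`, where `a = false` and `b = true`. -/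
def ab (n : ℕ) : List Bool := List.replicate n false ++ List.replicate n true

section

variable {X : Type} {a b : X}

theorem split_ab (hab : a ≠ b) {u v : List X} {n m : ℕ}
    (h : u ++ a :: b :: v = List.replicate n a ++ List.replicate m b) :
    u = List.replicate u.length a ∧ v = List.replicate v.length b ∧ n = u.length + 1 ∧
      m = v.length + 1 := by
  classical
  have hp : (List.replicate n a ++ List.replicate m b).Pairwise
      (fun x y => ¬ (x = b ∧ y = a)) := by
    rw [List.pairwise_append]
    refine ⟨?_, ?_, ?_⟩
    · rw [List.pairwise_replicate]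
      right
      exact fun h => hab h.1
    · rw [List.pairwise_replicate]
      right
      exact fun h => hab h.2.symm
    · intro x hx y hy h
      exact hab ((List.eq_of_mem_replicate hx).symm.trans h.1)
  have hmem : ∀ x ∈ u ++ a :: b :: v, x = a ∨ x = b := by
    rw [h]
    intro x hx
    rcases List.mem_append.1 hx with hx | hx
    · exact Or.inl (List.eq_of_mem_replicate hx)
    · exact Or.inr (List.eq_of_mem_replicate hx)
  rw [← h, List.pairwise_append] at hp
  obtain ⟨-, hp2, hp3⟩ := hp
  rw [List.pairwise_cons, List.pairwise_cons] at hp2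
  have hu : u = List.replicate u.length a := by
    rw [List.eq_replicate_iff]
    refine ⟨rfl, fun x hx => ?_⟩
    rcases hmem x (List.mem_append_left _ hx) with h1 | h1
    · exact h1
    · exact absurd ⟨h1, rfl⟩ (hp3 x hx a List.mem_cons_self)
  have hv : v = List.replicate v.length b := by
    rw [List.eq_replicate_iff]
    refine ⟨rfl, fun x hx => ?_⟩
    rcases hmem x (List.mem_append_right _ (List.mem_cons_of_mem _ (List.mem_cons_of_mem _ hx)))
      with h1 | h1
    · exact absurd ⟨rfl, h1⟩ (hp2.2.1 x hx)
    · exact h1
  have ca := congrArg (List.count a) h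
  have cb := congrArg (List.count b) h
  rw [hu, hv] at ca cb
  simp only [List.count_append, List.count_cons, List.count_replicate, beq_self_eq_true,
    if_true, List.length_replicate] at ca cb
  have e1 : (b == a) = false := by simpa using hab.symm
  have e2 : (a == b) = false := by simpa using hab
  simp only [e1, e2] at ca cb
  refine ⟨hu, hv, ?_, ?_⟩
  · simp at ca
    omega
  · simp at cb
    omega

theorem split_aAb {c : X} (ha : a ≠ c) (hb : b ≠ c) (l r : List X) (n m : ℕ)
    (h : l ++ c :: r = List.replicate n a ++ c :: List.replicate m b) :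
    l = List.replicate n a ∧ r = List.replicate m b := by
  induction n generalizing l with
  | zero =>
    cases l with
    | nil => simpa using h
    | cons x l =>
      exfalso
      simp only [List.replicate_zero, List.nil_append, List.cons_append, List.cons.injEq] at h
      have : c ∈ List.replicate m b := by
        rw [← h.2]
        simp
      exact hb (List.eq_of_mem_replicate this).symm
  | succ n ih =>
    cases l with
    | nil =>
      simp only [List.nil_append, List.replicate_succ, List.cons_append, List.cons.injEq] at h
      exact absurd h.1.symm ha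
    | cons x l =>
      simp only [List.replicate_succ, List.cons_append, List.cons.injEq] at h
      obtain ⟨h1, h2⟩ := h
      obtain ⟨h3, h4⟩ := ih l h2
      exact ⟨by rw [h1, h3, List.replicate_succ], h4⟩

end

/-- the letters of the sentential forms -/
abbrev Y : Type := Bool ⊕ Bool

/-- The rules `S → ab`, `S → aAb`, `aAb → a aAb b`, `aAb → a ab b`. -/
def rules : Finset (List Y × Bool × List Y × List Y) :=
  {([], false, [], [Sum.inr false, Sum.inr true]),
    ([], false, [], [Sum.inr false, Sum.inl true, Sum.inr true]),
    ([Sum.inr false], true, [Sum.inr true], [Sum.inr false, Sum.inl true, Sum.inr true]),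
    ([Sum.inr false], true, [Sum.inr true], [Sum.inr false, Sum.inr true])}

theorem rules_gamma : ∀ r ∈ rules, r.2.2.2 ≠ [] := by
  intro r hr
  simp only [rules, Finset.mem_insert, Finset.mem_singleton] at hr
  rcases hr with rfl | rfl | rfl | rfl <;> simp

/-- The grammar with the rules `S → ab`, `S → aAb`, `aAb → a aAb b`, `aAb → a ab b` (the
nonterminals are `S = false` and `A = true`, the terminals `a = false` and `b = true`). -/
def gram : CSGrammar Bool where
  N := Bool
  finN := inferInstance
  S := false
  P := rules
  gamma := rules_gamma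

/-- The derivation step of `gram`. -/
def Stp (w w' : List Y) : Prop :=
  ∃ r ∈ rules, ∃ u v u' v' : List Y,
    w = u ++ r.1 ++ [Sum.inl r.2.1] ++ r.2.2.1 ++ v ∧
    w' = u' ++ r.1 ++ r.2.2.2 ++ r.2.2.1 ++ v' ∧
    u ++ r.1 ++ r.2.2.1 ++ v = u' ++ r.1 ++ r.2.2.1 ++ v'

theorem language_eq : gram.contextJumpLanguage =
    {w | ReflTransGen Stp [Sum.inl false] (w.map Sum.inr)} := rfl

theorem ab_map (n : ℕ) : (ab n).map (Sum.inr : Bool → Y) =
    List.replicate n (Sum.inr false) ++ List.replicate n (Sum.inr true) := by
  simp [ab]

/-- the sentential forms -/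
def Inv (w : List Y) : Prop :=
  w = [Sum.inl false] ∨ (∃ n : ℕ, w = List.replicate (n + 1) (Sum.inr false) ++
    Sum.inl true :: List.replicate (n + 1) (Sum.inr true)) ∨
  (∃ n : ℕ, w = List.replicate (n + 1) (Sum.inr false) ++ List.replicate (n + 1) (Sum.inr true))

theorem inv_step {w w' : List Y} (hw : Inv w) (h : Stp w w') : Inv w' := by
  obtain ⟨r, hr, u, v, u', v', h1, h2, h3⟩ := h
  have hr' : r = ([], false, [], [Sum.inr false, Sum.inr true]) ∨
    r = ([], false, [], [Sum.inr false, Sum.inl true, Sum.inr true]) ∨
    r = ([Sum.inr false], true, [Sum.inr true], [Sum.inr false, Sum.inl true, Sum.inr true]) ∨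
    r = ([Sum.inr false], true, [Sum.inr true], [Sum.inr false, Sum.inr true]) := by
    simpa [rules] using hr
  -- the case of the rules for `S`
  have caseS : ∀ γ : List Y, w = u ++ [] ++ [Sum.inl false] ++ [] ++ v →
      w' = u' ++ [] ++ γ ++ [] ++ v' → u ++ [] ++ [] ++ v = u' ++ [] ++ [] ++ v' → w' = γ := by
    intro γ e1 e2 e3
    simp only [List.append_nil] at e1 e2 e3
    have hmem : (Sum.inl false : Y) ∈ w := by rw [e1]; simp
    rcases hw with rfl | ⟨n, rfl⟩ | ⟨n, rfl⟩
    · have hlen := congrArg List.length e1
      simp only [List.length_append, List.length_cons, List.length_nil] at hlen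
      have hu : u = [] := List.length_eq_zero_iff.1 (by omega)
      have hv : v = [] := List.length_eq_zero_iff.1 (by omega)
      subst hu hv
      simp only [List.append_nil] at e3
      have := List.append_eq_nil_iff.1 e3.symm
      rw [e2, this.1, this.2]
      simp
    · exfalso
      simp [List.mem_replicate] at hmem
    · exfalso
      simp [List.mem_replicate] at hmem
  -- the case of the rules for `A`
  have caseA : ∀ γ : List Y, w = u ++ [Sum.inr false] ++ [Sum.inl true] ++ [Sum.inr true] ++ v →
      w' = u' ++ [Sum.inr false] ++ γ ++ [Sum.inr true] ++ v' →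
      u ++ [Sum.inr false] ++ [Sum.inr true] ++ v = u' ++ [Sum.inr false] ++ [Sum.inr true] ++ v' →
      ∃ n : ℕ, w' = List.replicate (n + 1) (Sum.inr false) ++ γ ++
        List.replicate (n + 1) (Sum.inr true) := by
    intro γ e1 e2 e3
    have hmem : (Sum.inl true : Y) ∈ w := by rw [e1]; simp
    rcases hw with rfl | ⟨n, rfl⟩ | ⟨n, rfl⟩
    · exfalso
      simp at hmem
    · have e4 : (u ++ [Sum.inr false]) ++ (Sum.inl true : Y) :: ([Sum.inr true] ++ v) =
          List.replicate (n + 1) (Sum.inr false) ++
            Sum.inl true :: List.replicate (n + 1) (Sum.inr true) := by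
        rw [e1]; simp
      obtain ⟨e5, e6⟩ := split_aAb (by simp) (by simp) _ _ _ _ e4
      have e7 : u' ++ (Sum.inr false : Y) :: Sum.inr true :: v' =
          List.replicate (n + 1) (Sum.inr false) ++ List.replicate (n + 1) (Sum.inr true) := by
        rw [← e5, ← e6]
        have : u' ++ (Sum.inr false : Y) :: Sum.inr true :: v' =
          u' ++ [Sum.inr false] ++ [Sum.inr true] ++ v' := by simp
        rw [this, ← e3]
        simp
      obtain ⟨f1, f2, f3, f4⟩ := split_ab (by simp) e7
      refine ⟨n, ?_⟩
      have g1 : u'.length = n := by omega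
      have g2 : v'.length = n := by omega
      rw [g1] at f1
      rw [g2] at f2
      rw [e2, f1, f2, List.replicate_succ' (n := n) (a := (Sum.inr false : Y)),
        List.replicate_succ (n := n) (a := (Sum.inr true : Y))]
      simp
    · exfalso
      simp [List.mem_replicate] at hmem
  rcases hr' with rfl | rfl | rfl | rfl
  · right; right
    exact ⟨0, by rw [caseS _ h1 h2 h3]; rfl⟩
  · right; left
    exact ⟨0, by rw [caseS _ h1 h2 h3]; rfl⟩
  · right; left
    obtain ⟨n, hn⟩ := caseA _ h1 h2 h3
    refine ⟨n + 1, ?_⟩
    rw [hn, List.replicate_succ' (n := n + 1) (a := (Sum.inr false : Y)),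
      List.replicate_succ (n := n + 1) (a := (Sum.inr true : Y))]
    simp
  · right; right
    obtain ⟨n, hn⟩ := caseA _ h1 h2 h3
    refine ⟨n + 1, ?_⟩
    rw [hn, List.replicate_succ' (n := n + 1) (a := (Sum.inr false : Y)),
      List.replicate_succ (n := n + 1) (a := (Sum.inr true : Y))]
    simp

theorem reach_A (n : ℕ) : ReflTransGen Stp [Sum.inl false]
    (List.replicate (n + 1) (Sum.inr false : Y) ++
      Sum.inl true :: List.replicate (n + 1) (Sum.inr true)) := by
  induction n with
  | zero =>
    refine ReflTransGen.single ⟨([], false, [], [Sum.inr false, Sum.inl true, Sum.inr true]),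
      by simp [rules], [], [], [], [], ?_, ?_, ?_⟩
    · rfl
    · rfl
    · rfl
  | succ n ih =>
    refine ReflTransGen.tail ih ⟨([Sum.inr false], true, [Sum.inr true],
      [Sum.inr false, Sum.inl true, Sum.inr true]), by simp [rules],
      List.replicate n (Sum.inr false), List.replicate n (Sum.inr true),
      List.replicate n (Sum.inr false), List.replicate n (Sum.inr true), ?_, ?_, rfl⟩
    · simp only
      rw [List.replicate_succ' (n := n) (a := (Sum.inr false : Y)),
        List.replicate_succ (n := n) (a := (Sum.inr true : Y))]
      simp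
    · simp only
      rw [List.replicate_succ' (n := n + 1) (a := (Sum.inr false : Y)),
        List.replicate_succ (n := n + 1) (a := (Sum.inr true : Y)),
        List.replicate_succ' (n := n) (a := (Sum.inr false : Y)),
        List.replicate_succ (n := n) (a := (Sum.inr true : Y))]
      simp

theorem reach_ab (n : ℕ) : ReflTransGen Stp [Sum.inl false]
    ((ab (n + 1)).map (Sum.inr : Bool → Y)) := by
  rw [ab_map]
  cases n with
  | zero =>
    refine ReflTransGen.single ⟨([], false, [], [Sum.inr false, Sum.inr true]),
      by simp [rules], [], [], [], [], ?_, ?_, ?_⟩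
    · rfl
    · rfl
    · rfl
  | succ n =>
    refine ReflTransGen.tail (reach_A n) ⟨([Sum.inr false], true, [Sum.inr true],
      [Sum.inr false, Sum.inr true]), by simp [rules],
      List.replicate n (Sum.inr false), List.replicate n (Sum.inr true),
      List.replicate n (Sum.inr false), List.replicate n (Sum.inr true), ?_, ?_, rfl⟩
    · simp only
      rw [List.replicate_succ' (n := n) (a := (Sum.inr false : Y)),
        List.replicate_succ (n := n) (a := (Sum.inr true : Y))]
      simp
    · simp only
      rw [List.replicate_succ' (n := n + 1) (a := (Sum.inr false : Y)),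
        List.replicate_succ (n := n + 1) (a := (Sum.inr true : Y)),
        List.replicate_succ' (n := n) (a := (Sum.inr false : Y)),
        List.replicate_succ (n := n) (a := (Sum.inr true : Y))]
      simp

theorem gram_language : gram.contextJumpLanguage = {w | ∃ n : ℕ, 1 ≤ n ∧ w = ab n} := by
  rw [language_eq]
  ext w
  constructor
  · intro h
    have hinv : Inv (w.map Sum.inr) := by
      have key : ∀ w' : List Y, ReflTransGen Stp [Sum.inl false] w' → Inv w' := by
        intro w' hw'
        induction hw' with
        | refl => exact Or.inl rfl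
        | tail _ h2 ih => exact inv_step ih h2
      exact key _ h
    rcases hinv with h | ⟨n, h⟩ | ⟨n, h⟩
    · exfalso
      have : (Sum.inl false : Y) ∈ w.map Sum.inr := by rw [h]; simp
      simp at this
    · exfalso
      have : (Sum.inl true : Y) ∈ w.map Sum.inr := by rw [h]; simp
      simp at this
    · refine ⟨n + 1, by omega, ?_⟩
      rw [← ab_map] at h
      exact (List.map_injective_iff.2 Sum.inr_injective) h
  · rintro ⟨n, hn, rfl⟩
    obtain ⟨m, rfl⟩ : ∃ m, n = m + 1 := ⟨n - 1, by omega⟩
    exact reach_ab m

/-- A prefix of `a ^ n b ^ n` of length at most `n` has letters `a` only. -/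
theorem prefix_ab {n k : ℕ} {q r : List Bool} (h : q ++ r = ab k) (hl : (q ++ r).length = 2 * n)
    (hq : q.length ≤ n) : q = List.replicate q.length false := by
  have hk : k = n := by
    rw [h, ab, List.length_append, List.length_replicate, List.length_replicate] at hl
    omega
  subst hk
  have h1 := congrArg (List.take q.length) h
  rw [List.take_left] at h1
  rw [h1, ab, List.take_append_of_le_length (by simpa using hq), List.take_replicate]
  simp

/-- A suffix of `a ^ n b ^ n` of length at most `n` has letters `b` only. -/
theorem suffix_ab {n k : ℕ} {q r : List Bool} (h : r ++ q = ab k) (hl : (r ++ q).length = 2 * n)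
    (hq : q.length ≤ n) : q = List.replicate q.length true := by
  have hk : k = n := by
    rw [h, ab, List.length_append, List.length_replicate, List.length_replicate] at hl
    omega
  subst hk
  have h2 := congrArg List.reverse h
  rw [List.reverse_append, ab, List.reverse_append, List.reverse_replicate,
    List.reverse_replicate] at h2
  have h3 := congrArg (List.take q.reverse.length) h2
  rw [List.take_left, List.take_append_of_le_length (by simpa using hq), List.take_replicate]
    at h3
  have h4 := congrArg List.reverse h3
  rw [List.reverse_reverse, List.reverse_replicate] at h4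
  rw [h4]
  simp

theorem not_jump {T : Type} (f : Bool → T) (hf : Function.Injective f) (H : Grammar T)
    (hH : H.Monotonous) : H.jumpLanguage ≠ (List.map f) '' {w | ∃ n : ℕ, 1 ≤ n ∧ w = ab n} := by
  intro hL
  -- a bound for the lengths of the right-hand sides
  obtain ⟨K, hK⟩ : ∃ K : ℕ, ∀ r ∈ H.P, r.2.length ≤ K := by
    refine ⟨H.P.sup (fun r => r.2.length), fun r hr => ?_⟩
    exact Finset.le_sup (f := fun r : List (H.N ⊕ T) × List (H.N ⊕ T) => r.2.length) hr
  set n := K + 1 with hn
  have hmem : (ab n).map f ∈ H.jumpLanguage := by
    rw [hL]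
    exact ⟨ab n, ⟨n, by omega, rfl⟩, rfl⟩
  have hmem' : ReflTransGen H.Jump [Sum.inl H.S] (((ab n).map f).map Sum.inr) := hmem
  rcases ReflTransGen.cases_tail hmem' with h0 | ⟨w0, h1, h2⟩
  · have : (Sum.inl H.S : H.N ⊕ T) ∈ ((ab n).map f).map Sum.inr := by rw [h0]; simp
    simp at this
  · obtain ⟨r, hr, u, v, u', v', e1, e2, e3⟩ := h2
    -- the last step, as a decomposition of `a ^ n b ^ n`
    obtain ⟨p1, r', e4, e5, e6⟩ := List.map_eq_append_iff.1 e2
    obtain ⟨p, q, e7, e8, e9⟩ := List.map_eq_append_iff.1 e5
    obtain ⟨P1, R', g1, g2, g3⟩ := List.map_eq_append_iff.1 e4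
    subst g2 g3
    obtain ⟨P', Q', g4, g5, g6⟩ := List.map_eq_append_iff.1 e7
    subst g5 g6
    have hmk : ∀ x : List Bool, (x.map f).map (Sum.inr : T → H.N ⊕ T) =
        x.map (fun c => Sum.inr (f c)) := fun x => by simp [Function.comp_def]
    -- the word inserted at the front
    have hfront : Q' ++ (P' ++ R') ∈ {w | ∃ n : ℕ, 1 ≤ n ∧ w = ab n} := by
      have hj : (Q' ++ (P' ++ R')).map f ∈ H.jumpLanguage := by
        refine ReflTransGen.tail h1 ⟨r, hr, u, v, [], u ++ v, e1, ?_, by simp⟩
        rw [e3, ← e6, ← e8, ← e9]
        simp
      rw [hL] at hj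
      obtain ⟨w, hw, hw2⟩ := hj
      rw [← (List.map_injective_iff.2 hf) hw2]
      exact hw
    have hback : (P' ++ R') ++ Q' ∈ {w | ∃ n : ℕ, 1 ≤ n ∧ w = ab n} := by
      have hj : ((P' ++ R') ++ Q').map f ∈ H.jumpLanguage := by
        refine ReflTransGen.tail h1 ⟨r, hr, u, v, u ++ v, [], e1, ?_, by simp⟩
        rw [e3, ← e6, ← e8, ← e9]
        simp
      rw [hL] at hj
      obtain ⟨w, hw, hw2⟩ := hj
      rw [← (List.map_injective_iff.2 hf) hw2]
      exact hw
    obtain ⟨k1, -, hk1⟩ := hfront
    obtain ⟨k2, -, hk2⟩ := hback
    have hlen : P'.length + Q'.length + R'.length = 2 * n := by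
      have := congrArg List.length g1
      rw [List.length_append, g4, List.length_append, ab, List.length_append,
        List.length_replicate, List.length_replicate] at this
      omega
    have hQ : Q'.length ≤ K := by
      have := hK r hr
      rw [← e9] at this
      simpa using this
    have hQ1 : 1 ≤ Q'.length := by
      have h3 := hH r hr
      obtain ⟨A, hA⟩ := H.lhs r hr
      have h4 := List.length_pos_of_mem hA
      rw [← e9] at h3
      simp only [List.length_map] at h3
      omega
    have f1 := prefix_ab (n := n) hk1 (by simp only [List.length_append]; omega) (by omega)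
    have f2 := suffix_ab (n := n) hk2 (by simp only [List.length_append]; omega) (by omega)
    obtain ⟨m, hm⟩ : ∃ m, Q'.length = m + 1 := ⟨Q'.length - 1, by omega⟩
    rw [hm, List.replicate_succ] at f1 f2
    rw [f1] at f2
    simp at f2

/-- The context-sensitive grammar `gram` generates, with context-preserving jumping steps, the
language of the words `a ^ n b ^ n`, `n ≥ 1`, and no monotonous grammar (over any terminal alphabet
`T`, into which the letters are embedded by `f`) generates this language with jumping steps. -/
theorem result :
    gram.contextJumpLanguage = {w | ∃ n : ℕ, 1 ≤ n ∧ w = ab n} ∧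
    ∀ (T : Type) (f : Bool → T), Function.Injective f →
      ∀ H : Grammar T, H.Monotonous →
        H.jumpLanguage ≠ (List.map f) '' gram.contextJumpLanguage := by
  refine ⟨gram_language, fun T f hf H hH => ?_⟩
  rw [gram_language]
  exact not_jump f hf H hH

end Pool.Agent.Results.MP_b8a1e8_lc.ContextJumps
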